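import Pool.Agent.H.MP_27f38a_gt.Main

open MeasureTheory Set
open scoped ContDiff Manifold

namespace Pool.Agent.Results.MP_27f38a_gt.No

open Pool.Agent.H.MP_27f38a_gt

theorem result : ∃ X : Fin 4 → (Fin 6 → ℝ) → (Fin 6 → ℝ),
    (∀ i, ContDiff ℝ ∞ (X i)) ∧ (∀ q, LinearIndependent ℝ fun i => X i q) ∧
    (∃ E, IsEndpoint X E ∧ SingTrans E) ∧
    ∀ (d : ℕ) (G : Type) [TopologicalSpace G] [ChartedSpace (EuclideanSpace ℝ (Fin d)) G]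
      [IsManifold 𝓘(ℝ, EuclideanSpace ℝ (Fin d)) 1 G] [SecondCountableTopology G]
      (a : G → (Fin 6 → ℝ) → (Fin 6 → ℝ)),
      ContMDiff (𝓘(ℝ, EuclideanSpace ℝ (Fin d)).prod 𝓘(ℝ, Fin 6 → ℝ)) 𝓘(ℝ, Fin 6 → ℝ) 1
        (Function.uncurry a) →
      ∃ F : ℝ → (Fin 6 → ℝ) → (Fin 6 → ℝ), ContDiff ℝ ∞ (Function.uncurry F) ∧ F 0 = id ∧
        (∀ s t, F (s + t) = F s ∘ F t) ∧ (∀ t, IsSym X (F t)) ∧ ∀ g, a g ≠ F 1 := by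
  refine ⟨X, X_smooth, X_li, ⟨E, isEnd, singTrans⟩, fun d G _ _ _ _ a h => ?_⟩
  obtain ⟨f, hf⟩ := notLie d G a h
  exact ⟨fl f, fl_smooth f, fl_zero f, fl_add f, fl_sym f, hf⟩

end Pool.Agent.Results.MP_27f38a_gt.No
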